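import Pool.Agent.L0h7.MS.Stm

/-! # MP_65b575_al, project MS, module TYP: the types of monsters pass to infinite quotients -/

set_option autoImplicit false

open Function

namespace Pool.Agent.L0h81.MS

open Pool.Agent.L0h7.MS

theorem map_comap_eq {G H : Type} [Group G] [Group H] (f : G →* H) (hf : Surjective f) (K : Subgroup H) :
    (K.comap f).map f = K := Subgroup.map_comap_eq_self_of_surjective hf K

theorem comap_ne_top {G H : Type} [Group G] [Group H] (f : G →* H) (hf : Surjective f) (K : Subgroup H)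
    (hK : K ≠ ⊤) : K.comap f ≠ ⊤ := by
  intro h
  apply hK
  rw [← map_comap_eq f hf K, h]
  rw [← MonoidHom.range_eq_map]
  exact MonoidHom.range_eq_top.2 hf

theorem comap_ne_bot {G H : Type} [Group G] [Group H] (f : G →* H) (hf : Surjective f) (K : Subgroup H)
    (hK : K ≠ ⊥) : K.comap f ≠ ⊥ := by
  intro h
  apply hK
  rw [← map_comap_eq f hf K, h, Subgroup.map_bot]

theorem cyclic_of_comap {G H : Type} [Group G] [Group H] (f : G →* H) (hf : Surjective f) (K : Subgroup H)
    (hK : IsCyclic (K.comap f)) : IsCyclic K := by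
  have h1 : ∀ x : K.comap f, f x.1 ∈ K := fun x => x.2
  let g : K.comap f →* K := (f.comp (K.comap f).subtype).codRestrict K h1
  have hg : Surjective g := by
    rintro ⟨y, hy⟩
    obtain ⟨x, rfl⟩ := hf y
    exact ⟨⟨x, hy⟩, Subtype.ext rfl⟩
  exact isCyclic_of_surjective g hg

theorem type2 : HerFG (fun G _ => Type2 G) := by
  intro G H _ _ f _ hf _ ⟨n, hn, h⟩
  refine ⟨n, hn, fun y => ?_⟩
  obtain ⟨x, rfl⟩ := hf y
  rw [← map_pow, h x, map_one]

theorem type5 : HerFG (fun G _ => Type5 G) := by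
  intro G H _ _ f _ hf _ h y m hm
  obtain ⟨x, rfl⟩ := hf y
  obtain ⟨z, rfl⟩ := h x m hm
  exact ⟨f z, (map_pow f z m).symm⟩

theorem type6 : HerFG (fun G _ => Type6 G) := by
  intro G H _ _ f _ hf _ h
  have : Finite (ConjClasses G) := h
  exact Finite.of_surjective (ConjClasses.map f) (ConjClasses.map_surjective hf)

theorem type4 : HerFG (fun G _ => Type4 G) := by
  intro G H _ _ f _ hf _ ⟨p, hp, h⟩
  refine ⟨p, hp, fun K hb ht => ?_⟩
  obtain ⟨hc, hcard⟩ := h (K.comap f) (comap_ne_bot f hf K hb) (comap_ne_top f hf K ht)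
  refine ⟨cyclic_of_comap f hf K hc, ?_⟩
  have hker : f.ker ≤ K.comap f := fun x hx => by
    rw [Subgroup.mem_comap, (MonoidHom.mem_ker).1 hx]
    exact K.one_mem
  have hinj : f.ker = ⊥ := by
    by_contra hne
    have hnt : f.ker ≠ ⊤ := by
      intro h'
      apply comap_ne_top f hf K ht
      exact top_le_iff.1 (h' ▸ hker)
    obtain ⟨_, hcard'⟩ := h f.ker hne hnt
    have : Finite (K.comap f) := Nat.finite_of_card_ne_zero (by rw [hcard]; exact hp.ne_zero)
    have heq : f.ker = K.comap f := Subgroup.eq_of_le_of_card_ge hker (by rw [hcard, hcard'])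
    apply hb
    rw [← map_comap_eq f hf K, ← heq]
    rw [Subgroup.map_eq_bot_iff]
  have hi : Injective f := (MonoidHom.ker_eq_bot_iff f).1 hinj
  have e := Subgroup.equivMapOfInjective (K.comap f) f hi
  rw [← hcard, Nat.card_congr e.toEquiv, map_comap_eq f hf K]

theorem type3 : HerFG (fun G _ => Type3 G) := by
  intro G H _ _ f _ hf hinf ⟨hG, h⟩
  refine ⟨fun hcyc => ?_, fun K hK => cyclic_of_comap f hf K (h _ (comap_ne_top f hf K hK))⟩
  obtain ⟨a, ha⟩ := hcyc.exists_generator
  have hafin : ¬ IsOfFinOrder a := by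
    intro hfin
    have h1 : ((Subgroup.zpowers a : Subgroup H) : Set H).Finite := finite_zpowers.2 hfin
    have h2 : ((Subgroup.zpowers a : Subgroup H) : Set H) = Set.univ := Set.eq_univ_of_forall ha
    rw [h2] at h1
    exact hinf.not_finite (Set.finite_univ_iff.1 h1)
  have hK : Subgroup.zpowers (a ^ 2) ≠ ⊤ := by
    intro htop
    have : a ∈ Subgroup.zpowers (a ^ 2) := by rw [htop]; trivial
    obtain ⟨k, hk⟩ := Subgroup.mem_zpowers_iff.1 this
    apply hafin
    rw [isOfFinOrder_iff_zpow_eq_one]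
    refine ⟨2 * k - 1, by omega, ?_⟩
    rw [zpow_sub, zpow_mul, zpow_one]
    have : (a ^ (2 : ℤ)) ^ k = a := by
      have h2 : a ^ (2 : ℤ) = a ^ 2 := by norm_cast
      rw [h2, hk]
    rw [this]
    exact mul_inv_cancel a
  obtain ⟨⟨l, hl⟩, hgen⟩ := (h _ (comap_ne_top f hf _ hK)).exists_generator
  have hlf : ¬ IsOfFinOrder (f l) := by
    intro hfin
    apply hafin
    apply IsOfFinOrder.of_pow (n := 2) _ (by norm_num)
    obtain ⟨b, hb⟩ := hf (a ^ 2)
    have hbm : b ∈ (Subgroup.zpowers (a ^ 2)).comap f := by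
      rw [Subgroup.mem_comap, hb]
      exact Subgroup.mem_zpowers _
    obtain ⟨j, hj⟩ := Subgroup.mem_zpowers_iff.1 (hgen ⟨b, hbm⟩)
    have hj' : l ^ j = b := by
      have := congrArg Subtype.val hj
      simpa using this
    rw [← hb, ← hj', map_zpow]
    exact hfin.zpow
  have hinj : f.ker = ⊥ := by
    rw [eq_bot_iff]
    intro n hn
    have hn1 : f n = 1 := MonoidHom.mem_ker.1 hn
    have hnm : n ∈ (Subgroup.zpowers (a ^ 2)).comap f := by
      rw [Subgroup.mem_comap, hn1]
      exact Subgroup.one_mem _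
    obtain ⟨j, hj⟩ := Subgroup.mem_zpowers_iff.1 (hgen ⟨n, hnm⟩)
    have hj' : l ^ j = n := by
      have := congrArg Subtype.val hj
      simpa using this
    by_cases hj0 : j = 0
    · rw [Subgroup.mem_bot, ← hj', hj0, zpow_zero]
    · exfalso
      apply hlf
      rw [isOfFinOrder_iff_zpow_eq_one]
      exact ⟨j, hj0, by rw [← map_zpow, hj', hn1]⟩
  have hi : Injective f := (MonoidHom.ker_eq_bot_iff f).1 hinj
  apply hG
  let e : G ≃* H := MulEquiv.ofBijective f ⟨hi, hf⟩
  exact isCyclic_of_surjective e.symm e.symm.surjective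

theorem t_TYP : S_TYP := ⟨type2, type3, type4, type5, type6⟩

end Pool.Agent.L0h81.MS
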